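import Pool.Agent.W2helper59.CW.Stm

/-!
# Project CW, piece GMN
-/

set_option autoImplicit false

namespace Pool.Agent.W2helper35.CW

open Pool.Agent.W2helper59.CW

theorem p_gmn : P_GMN := by
  intro hB hR al de ga hde hag
  obtain ⟨b, rfl⟩ : ∃ b, ga = b + 1 := ⟨ga - 1, by omega⟩
  have hab : al < b := by omega
  have h := hR (de + 1) al b (by omega) hab
  rw [show b + 1 - 1 = b from rfl, hB al de (b + 1), hB (al + 1) de b]
  push_cast at h ⊢
  have e1 : (al : ℝ) + (b + 1) = al + 1 + b := by ring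
  rw [e1]
  have hD : (0 : ℝ) < (de : ℝ) + 1 := by positivity
  have hp : 0 < Real.Gamma (1 + (al : ℝ) / (de + 1)) := Real.Gamma_pos_of_pos (by positivity)
  have hp' : 0 < Real.Gamma (1 + ((al : ℝ) + 1) / (de + 1)) := Real.Gamma_pos_of_pos (by positivity)
  have hq : 0 < Real.Gamma (1 + (b : ℝ) / (de + 1)) := Real.Gamma_pos_of_pos (by positivity)
  have hq' : 0 < Real.Gamma (1 + ((b : ℝ) + 1) / (de + 1)) := Real.Gamma_pos_of_pos (by positivity)
  have hg : 0 < Real.Gamma (2 + ((al : ℝ) + 1 + b) / (de + 1)) :=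
    Real.Gamma_pos_of_pos (by positivity)
  generalize Real.Gamma (1 + (al : ℝ) / (de + 1)) = p at *
  generalize Real.Gamma (1 + ((al : ℝ) + 1) / (de + 1)) = p' at *
  generalize Real.Gamma (1 + (b : ℝ) / (de + 1)) = q at *
  generalize Real.Gamma (1 + ((b : ℝ) + 1) / (de + 1)) = q' at *
  generalize Real.Gamma (2 + ((al : ℝ) + 1 + b) / (de + 1)) = g at *
  have hA : (0 : ℝ) < (al.factorial : ℝ) := by exact_mod_cast al.factorial_pos
  have hBf : (0 : ℝ) < (b.factorial : ℝ) := by exact_mod_cast b.factorial_pos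
  rw [Nat.factorial_succ al, Nat.factorial_succ b]
  push_cast
  generalize (al.factorial : ℝ) = A at *
  generalize (b.factorial : ℝ) = Bf at *
  have hc : 0 < p ^ (de + 1) * q ^ (de + 1) / (g ^ (de + 1) * (A * Bf)) := by positivity
  have h2 := mul_lt_mul_of_pos_left h hc
  have l1 : p ^ (de + 1) * q ^ (de + 1) / (g ^ (de + 1) * (A * Bf)) *
      ((q' / q) ^ (de + 1) / ((b : ℝ) + 1)) =
      (p * q' / g) ^ (de + 1) / (A * (((b : ℝ) + 1) * Bf)) := by
    rw [div_pow, div_pow, mul_pow]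
    field_simp
  have l2 : p ^ (de + 1) * q ^ (de + 1) / (g ^ (de + 1) * (A * Bf)) *
      ((p' / p) ^ (de + 1) / ((al : ℝ) + 1)) =
      (p' * q / g) ^ (de + 1) / ((((al : ℝ) + 1) * A) * Bf) := by
    rw [div_pow, div_pow, mul_pow]
    field_simp
  rw [l1, l2] at h2
  exact h2

end Pool.Agent.W2helper35.CW
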